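import Pool.Agent.H.MP_58a9d8_ag.B

namespace Pool.Agent.Results.MP_58a9d8_ag.Terms

open Pool.Agent.H.MP_58a9d8_ag

theorem result {K S M : Type} [Field K] [Semifield S] [AddCommMonoid M] (hS : (1 : S) + 1 = 1)
    (v : K →*₀ S) (I : Ideal (AddMonoidAlgebra K M)) [I.IsPrime]
    (hI : ∀ f ∈ I, f.coeff.support.card ≠ 1 ∧ f.coeff.support.card ≠ 2)
    (x : (Bend v I).Quotient) (hx : ∀ g h, x * g = x * h → g = h) :
    ∃ (u : M) (a : S), a ≠ 0 ∧ x = (Bend v I).mk' (AddMonoidAlgebra.single u a) :=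
  main hS v I (Ideal.Quotient.mkₐ K I) (fun _ => Ideal.Quotient.eq_zero_iff_mem) hI x hx

end Pool.Agent.Results.MP_58a9d8_ag.Terms
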